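import Mathlib

/-!
# A basis of a finitely generated group modulo a saturated subgroup, adapted to an element
-/

set_option autoImplicit false

namespace Pool.Agent.H556.FG

open Module

/-- in a torsion-free finitely generated abelian group a nonzero element is a positive multiple of
an element of a basis -/
lemma exists_basis_mul {M : Type*} [AddCommGroup M] [Module.Finite ℤ M]
    [Module.IsTorsionFree ℤ M] (z : M) (hz : z ≠ 0) :
    ∃ (k : ℕ) (b : Basis (Fin k) ℤ M) (j : Fin k) (e : ℕ), e ≠ 0 ∧ z = e • b j := by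
  classical
  have hfree : Module.Free ℤ M := Module.free_of_finite_type_torsion_free'
  set b0 := Module.finBasis ℤ M
  obtain ⟨n, snf⟩ := Submodule.smithNormalForm b0 (Submodule.span ℤ {z})
  have hzN : z ∈ Submodule.span ℤ {z} := Submodule.mem_span_singleton_self z
  -- some coordinate of `z` is nonzero
  have hrep : ∃ i : Fin n, snf.bN.repr ⟨z, hzN⟩ i ≠ 0 := by
    by_contra hcon
    push Not at hcon
    have h1 : snf.bN.repr ⟨z, hzN⟩ = 0 := Finsupp.ext hcon
    have h2 := (LinearEquiv.map_eq_zero_iff _).1 h1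
    apply hz
    exact congrArg Subtype.val h2
  obtain ⟨i0, hi0⟩ := hrep
  have hun : ∀ i : Fin n, i = i0 := by
    intro i
    by_contra hne
    obtain ⟨c, hc⟩ := Submodule.mem_span_singleton.1 (snf.bN i).2
    obtain ⟨c0, hc0⟩ := Submodule.mem_span_singleton.1 (snf.bN i0).2
    have h1 : c0 • snf.bN i = c • snf.bN i0 := by
      apply Subtype.ext
      simp only [Submodule.coe_smul]
      rw [← hc, ← hc0, smul_smul, smul_smul, mul_comm]
    have h2 := congrArg (fun x => snf.bN.repr x i) h1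
    simp only [map_smul, Basis.repr_self, Finsupp.smul_apply, Finsupp.single_apply, if_pos,
      if_neg (Ne.symm hne), smul_eq_mul, mul_one] at h2
    have h3 : (snf.bN i0 : M) = 0 := by
      rw [← hc0, h2, mul_zero, zero_smul]
    exact snf.bN.ne_zero i0 (Subtype.ext h3)
  obtain ⟨c0, hc0⟩ := Submodule.mem_span_singleton.1 (snf.bN i0).2
  have hz1 : z = (snf.bN.repr ⟨z, hzN⟩ i0) • (snf.bN i0 : M) := by
    have h1 := snf.bN.sum_repr ⟨z, hzN⟩
    rw [Finset.sum_eq_single i0 (fun i _ hi => absurd (hun i) hi)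
      (fun h => absurd (Finset.mem_univ _) h)] at h1
    have h2 := congrArg Subtype.val h1
    rw [Submodule.coe_smul] at h2
    exact h2.symm
  set a : ℤ := snf.bN.repr ⟨z, hzN⟩ i0 * snf.a i0 with ha
  have hz2 : z = a • snf.bM (snf.f i0) := by
    rw [ha, mul_smul, ← snf.snf i0]
    exact hz1
  have ha0 : a ≠ 0 := by
    rintro h
    rw [h, zero_smul] at hz2
    exact hz hz2
  refine ⟨_, snf.bM.unitsSMul (fun j => if a < 0 then -1 else 1), snf.f i0, a.natAbs,
    Int.natAbs_ne_zero.2 ha0, ?_⟩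
  rw [Basis.unitsSMul_apply]
  conv_lhs => rw [hz2]
  rcases lt_or_gt_of_ne ha0 with h | h
  · rw [if_pos h]
    have h1 : a = -(a.natAbs : ℤ) := by omega
    conv_lhs => rw [h1]
    rw [neg_smul, Units.neg_smul, one_smul, smul_neg, natCast_zsmul]
  · rw [if_neg (not_lt.2 h.le)]
    have h1 : a = (a.natAbs : ℤ) := by omega
    conv_lhs => rw [h1]
    rw [one_smul, natCast_zsmul]

/-- multiplicative form: generators of a finitely generated group modulo a saturated subgroup -/
theorem exists_gens {G : Type*} [CommGroup G] (N : Subgroup G)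
    (hsat : ∀ (x : G) (k : ℕ), k ≠ 0 → x ^ k ∈ N → x ∈ N) {r : ℕ} (f : Fin r → G) (z : G)
    (hz : z ∉ N) :
    ∃ (k : ℕ) (T : Fin k → G) (j : Fin k) (e : ℕ), e ≠ 0 ∧ z / T j ^ e ∈ N ∧
      (∀ i, ∃ x : Fin k → ℤ, f i / ∏ l, T l ^ (x l) ∈ N) ∧
      ∀ x : Fin k → ℤ, ∏ l, T l ^ (x l) ∈ N → x = 0 := by
  classical
  set Q := Additive (G ⧸ N) with hQ
  set q : G → Q := fun g => Additive.ofMul (QuotientGroup.mk g) with hq
  have hqs : ∀ y : Q, ∃ g, q g = y := by
    intro y
    obtain ⟨g, hg⟩ := QuotientGroup.mk_surjective (Additive.toMul y)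
    exact ⟨g, by rw [hq]; simp only []; rw [hg]; rfl⟩
  have hq0 : ∀ g, q g = 0 ↔ g ∈ N := by
    intro g
    rw [← QuotientGroup.eq_one_iff]
    exact Iff.rfl
  have hqmul : ∀ g h, q (g * h) = q g + q h := fun g h => rfl
  have hqpow : ∀ g (n : ℤ), q (g ^ n) = n • q g := fun g n => rfl
  have hqnpow : ∀ g (n : ℕ), q (g ^ n) = n • q g := fun g n => rfl
  have hqdiv : ∀ g h, q (g / h) = q g - q h := fun g h => rfl
  have hqprod : ∀ {k : ℕ} (T : Fin k → G) (x : Fin k → ℤ),
      q (∏ l, T l ^ (x l)) = ∑ l, x l • q (T l) := by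
    intro k T x
    have h1 : ∀ S : Finset (Fin k), q (∏ l ∈ S, T l ^ (x l)) = ∑ l ∈ S, x l • q (T l) := by
      intro S
      induction S using Finset.induction_on with
      | empty => rw [Finset.prod_empty, Finset.sum_empty, hq0]; exact one_mem _
      | insert a S ha ih => rw [Finset.prod_insert ha, Finset.sum_insert ha, hqmul, ih, hqpow]
    exact h1 _
  set P : Submodule ℤ Q := Submodule.span ℤ (Set.range (fun o : Option (Fin r) =>
    q (o.elim z f))) with hP
  have hfin : Module.Finite ℤ P := Module.Finite.span_of_finite ℤ (Set.finite_range _)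
  have htf : Module.IsTorsionFree ℤ P := by
    rw [Module.isTorsionFree_iff_smul_eq_zero]
    rintro n ⟨y, hy⟩ h
    by_cases hn : n = 0
    · exact Or.inl hn
    right
    obtain ⟨g, rfl⟩ := hqs y
    have h1 : q (g ^ n) = 0 := congrArg Subtype.val h
    apply Subtype.ext
    change q g = 0
    rw [hq0] at h1 ⊢
    apply hsat g n.natAbs (Int.natAbs_ne_zero.2 hn)
    rcases Int.natAbs_eq n with h2 | h2
    · rw [h2, zpow_natCast] at h1
      exact h1
    · rw [h2, zpow_neg, zpow_natCast] at h1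
      exact (Subgroup.inv_mem_iff N).1 h1
  have hzP : q z ∈ P := Submodule.subset_span ⟨none, rfl⟩
  have hfP : ∀ i, q (f i) ∈ P := fun i => Submodule.subset_span ⟨some i, rfl⟩
  obtain ⟨k, b, j, e, he, hze⟩ := exists_basis_mul (⟨q z, hzP⟩ : P) (by
    intro h
    exact hz ((hq0 z).1 (congrArg Subtype.val h)))
  choose T hT using fun l => hqs (b l : Q)
  refine ⟨k, T, j, e, he, ?_, fun i => ?_, fun x hx => ?_⟩
  · rw [← hq0, hqdiv, hqnpow, hT, sub_eq_zero]
    exact congrArg Subtype.val hze
  · refine ⟨fun l => b.repr ⟨q (f i), hfP i⟩ l, ?_⟩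
    rw [← hq0, hqdiv, hqprod, sub_eq_zero]
    have h1 := congrArg Subtype.val (b.sum_repr ⟨q (f i), hfP i⟩)
    rw [AddSubmonoidClass.coe_finsetSum] at h1
    change _ = q (f i) at h1
    conv_lhs => rw [← h1]
    refine Finset.sum_congr rfl fun l _ => ?_
    rw [hT]
    rfl
  · rw [← hq0, hqprod] at hx
    have h1 : ∑ l, x l • b l = 0 := by
      apply Subtype.ext
      rw [AddSubmonoidClass.coe_finsetSum]
      rw [Submodule.coe_zero, ← hx]
      refine Finset.sum_congr rfl fun l _ => ?_
      rw [hT]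
      rfl
    funext l
    exact Fintype.linearIndependent_iff.1 b.linearIndependent x h1 l

end Pool.Agent.H556.FG
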