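import Mathlib
import Pool.Graph.R_seed8.Y724.Vj.Gcd2
import Pool.Agent.H556.FG.Basis

/-!
# Generators of a group of `S`-unit germs modulo the negligible germs
-/

set_option autoImplicit false

namespace Pool.Agent.H556.FG

open Filter Topology Pool.Agent.TH932.Germs Pool.Agent.TH551.SU Pool.Agent.Y724.Vj
open Pool.Agent.TH551.SU.SUI MvPolynomial

variable {L : ℕ → ℝ}

/-! ## closure properties -/

lemma isSU_one {s : ℕ} (b : Fin s → ℕ) : IsSU b 1 :=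
  ⟨1, fun _ => 0, Or.inl rfl, by simp⟩

lemma isSU_mul {s : ℕ} {b : Fin s → ℕ} (hb : ∀ v, (b v).Prime) {x y : ℚ} (hx : IsSU b x)
    (hy : IsSU b y) : IsSU b (x * y) := by
  obtain ⟨σ, e, hσ, rfl⟩ := hx
  obtain ⟨τ, f, hτ, rfl⟩ := hy
  refine ⟨σ * τ, fun v => e v + f v, ?_, ?_⟩
  · rcases hσ with rfl | rfl <;> rcases hτ with rfl | rfl <;> simp
  · have h1 : ∏ v, (b v : ℚ) ^ (e v + f v) = (∏ v, (b v : ℚ) ^ e v) * ∏ v, (b v : ℚ) ^ f v := by
      rw [← Finset.prod_mul_distrib]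
      exact Finset.prod_congr rfl fun v _ => zpow_add₀ (by exact_mod_cast (hb v).ne_zero) _ _
    rw [h1]
    push_cast
    ring

lemma isSU_inv {s : ℕ} {b : Fin s → ℕ} {x : ℚ} (hx : IsSU b x) : IsSU b x⁻¹ := by
  obtain ⟨σ, e, hσ, rfl⟩ := hx
  refine ⟨σ, fun v => -e v, hσ, ?_⟩
  rw [mul_inv, ← Finset.prod_inv_distrib]
  congr 1
  · rcases hσ with rfl | rfl <;> norm_num
  · exact Finset.prod_congr rfl fun v _ => (zpow_neg _ _).symm

lemma gsu_one {s : ℕ} (b : Fin s → ℕ) : GSU b 1 := ⟨fun _ => 1, gm_one.symm, fun _ => isSU_one b⟩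

lemma gsu_mul {s : ℕ} {b : Fin s → ℕ} (hb : ∀ v, (b v).Prime) {g h : GG} (hg : GSU b g)
    (hh : GSU b h) : GSU b (g * h) := by
  obtain ⟨a, rfl, ha⟩ := hg
  obtain ⟨c, rfl, hc⟩ := hh
  exact ⟨_, gm_mul a c, fun n => isSU_mul hb (ha n) (hc n)⟩

lemma gsu_inv {s : ℕ} {b : Fin s → ℕ} {g : GG} (hg : GSU b g) : GSU b g⁻¹ := by
  obtain ⟨a, rfl, ha⟩ := hg
  exact ⟨_, gm_inv a, fun n => isSU_inv (ha n)⟩

lemma gsu_pow {s : ℕ} {b : Fin s → ℕ} (hb : ∀ v, (b v).Prime) {g : GG} (hg : GSU b g) (k : ℕ) :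
    GSU b (g ^ k) := by
  induction k with
  | zero => rw [pow_zero]; exact gsu_one b
  | succ k ih => rw [pow_succ]; exact gsu_mul hb ih hg

lemma gsu_prod {s : ℕ} {b : Fin s → ℕ} (hb : ∀ v, (b v).Prime) {ι : Type*} (S : Finset ι)
    (f : ι → GG) (h : ∀ i ∈ S, GSU b (f i)) : GSU b (∏ i ∈ S, f i) :=
  Finset.prod_induction f (GSU b) (fun _ _ => gsu_mul hb) (gsu_one b) h

lemma bd_one : Bd L 1 := by
  refine ⟨fun _ => 1, fun _ => 1, 0, ?_, ?_, ?_, ?_⟩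
  · exact Eventually.of_forall fun n => by simp
  · exact Eventually.of_forall fun n => by simp
  · exact Eventually.of_forall fun n => one_ne_zero
  · rw [← gm_one]
    congr 1
    funext n
    simp

lemma bd_mul {g h : GG} (hg : Bd L g) (hh : Bd L h) : Bd L (g * h) := by
  obtain ⟨m, d, A, h1, h2, h3, rfl⟩ := hg
  obtain ⟨m', d', A', h1', h2', h3', rfl⟩ := hh
  refine ⟨fun n => m n * m' n, fun n => d n * d' n, A + A', ?_, ?_, ?_, ?_⟩
  · filter_upwards [h1, h1'] with n hn hn'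
    push_cast
    rw [abs_mul, add_mul, Real.exp_add]
    exact mul_le_mul hn hn' (abs_nonneg _) (Real.exp_pos _).le
  · filter_upwards [h2, h2'] with n hn hn'
    push_cast
    rw [abs_mul, add_mul, Real.exp_add]
    exact mul_le_mul hn hn' (abs_nonneg _) (Real.exp_pos _).le
  · filter_upwards [h3, h3'] with n hn hn' using mul_ne_zero hn hn'
  · rw [gm_mul]
    congr 1
    funext n
    push_cast
    rw [div_mul_div_comm]

lemma bd_inv {g : GG} (hg0 : g ≠ 0) (hg : Bd L g) : Bd L g⁻¹ := by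
  obtain ⟨m, d, A, h1, h2, h3, rfl⟩ := hg
  refine ⟨d, m, A, h2, h1, ?_, ?_⟩
  · filter_upwards [gm_ne_zero.1 hg0] with n hn hm
    apply hn
    rw [hm]
    simp
  · rw [gm_inv]
    congr 1
    funext n
    rw [inv_div]

/-- the group of germs of `b`-units of height `O(L)` -/
noncomputable def SUg {s : ℕ} (b : Fin s → ℕ) (hb : ∀ v, (b v).Prime) (L : ℕ → ℝ) :
    Subgroup GGˣ where
  carrier := {g | GSU b (g : GG) ∧ Bd L (g : GG)}
  mul_mem' := by
    rintro x y ⟨hx, hx'⟩ ⟨hy, hy'⟩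
    exact ⟨gsu_mul hb hx hy, bd_mul hx' hy'⟩
  one_mem' := ⟨gsu_one b, bd_one⟩
  inv_mem' := by
    rintro x ⟨hx, hx'⟩
    change GSU b ((x⁻¹ : GGˣ) : GG) ∧ Bd L ((x⁻¹ : GGˣ) : GG)
    rw [Units.val_inv_eq_inv_val]
    exact ⟨gsu_inv hx, bd_inv x.ne_zero hx'⟩

/-- the value of an element -/
noncomputable def vl {s : ℕ} (b : Fin s → ℕ) (hb : ∀ v, (b v).Prime) (L : ℕ → ℝ) :
    SUg b hb L →* GG := (Units.coeHom GG).comp (SUg b hb L).subtype

lemma vl_apply {s : ℕ} (b : Fin s → ℕ) (hb : ∀ v, (b v).Prime) (x : SUg b hb L) :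
    vl b hb L x = ((x : GGˣ) : GG) := rfl

lemma vl_inv {s : ℕ} (b : Fin s → ℕ) (hb : ∀ v, (b v).Prime) (x : SUg b hb L) :
    vl b hb L x⁻¹ = (vl b hb L x)⁻¹ := by
  rw [vl_apply, vl_apply, Subgroup.coe_inv, Units.val_inv_eq_inv_val]

lemma vl_div {s : ℕ} (b : Fin s → ℕ) (hb : ∀ v, (b v).Prime) (x y : SUg b hb L) :
    vl b hb L (x / y) = vl b hb L x / vl b hb L y := by
  rw [div_eq_mul_inv, map_mul, vl_inv, div_eq_mul_inv]

lemma vl_zpow {s : ℕ} (b : Fin s → ℕ) (hb : ∀ v, (b v).Prime) (x : SUg b hb L) (n : ℤ) :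
    vl b hb L (x ^ n) = (vl b hb L x) ^ n := by
  rw [vl_apply, vl_apply, Subgroup.coe_zpow, Units.val_zpow_eq_zpow_val]

lemma vl_ne_zero {s : ℕ} (b : Fin s → ℕ) (hb : ∀ v, (b v).Prime) (x : SUg b hb L) :
    vl b hb L x ≠ 0 := by
  rw [vl_apply]
  exact Units.ne_zero _

/-- negligible units -/
noncomputable def NU {s : ℕ} (b : Fin s → ℕ) (hb : ∀ v, (b v).Prime) (L : ℕ → ℝ)
    (hL : Tendsto L atTop atTop) : Subgroup (SUg b hb L) where
  carrier := {g | vl b hb L g ∈ KK L hL}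
  mul_mem' := by
    intro x y hx hy
    change vl b hb L (x * y) ∈ KK L hL
    rw [map_mul]
    exact (KK L hL).mul_mem hx hy
  one_mem' := by
    change vl b hb L 1 ∈ KK L hL
    rw [map_one]
    exact (KK L hL).one_mem
  inv_mem' := by
    intro x hx
    change vl b hb L x⁻¹ ∈ KK L hL
    rw [vl_inv]
    exact (KK L hL).inv_mem hx

lemma mem_NU {s : ℕ} (b : Fin s → ℕ) (hb : ∀ v, (b v).Prime) (hL : Tendsto L atTop atTop)
    (x : SUg b hb L) : x ∈ NU b hb L hL ↔ vl b hb L x ∈ KK L hL := Iff.rfl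

/-- a germ is negligible if a power is -/
lemma mem_KK_of_pow (hL : Tendsto L atTop atTop) (g : GG) {k : ℕ} (hk : k ≠ 0)
    (h : g ^ k ∈ KK L hL) : g ∈ KK L hL := by
  obtain ⟨a, rfl⟩ := gm_surj g
  rw [gm_pow, mem_KK_iff] at h
  rw [mem_KK_iff]
  have key : ∀ (m : ℕ → ℤ), Negl L (fun n => m n ^ k) → Negl L m := by
    intro m hm ε hε
    have hk0 : (0 : ℝ) < k := by exact_mod_cast Nat.pos_of_ne_zero hk
    filter_upwards [hm (k * ε) (by positivity)] with n hn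
    push_cast at hn
    rw [abs_pow] at hn
    have h1 : Real.exp (k * ε * L n) = Real.exp (ε * L n) ^ k := by
      rw [← Real.exp_nat_mul]
      ring_nf
    rw [h1] at hn
    exact le_of_pow_le_pow_left₀ hk (Real.exp_pos _).le hn
  obtain ⟨h1, h2⟩ := h
  constructor
  · apply key
    convert h1 using 2 with n
    rw [Rat.num_pow]
  · apply key
    convert h2 using 2 with n
    rw [Rat.den_pow]
    push_cast
    rfl

/-- multiplicatively independent generators -/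
theorem exists_T {s : ℕ} (b : Fin s → ℕ) (hb : ∀ v, (b v).Prime) (hL : Tendsto L atTop atTop)
    {r : ℕ} (f : Fin r → ℕ → ℚ) (hf : ∀ i n, IsSU b (f i n)) (hfB : ∀ i, Bd L (gm (f i)))
    (Z : ℕ → ℚ) (hZ : ∀ n, IsSU b (Z n)) (hZB : Bd L (gm Z)) (hZK : gm Z ∉ KK L hL) :
    ∃ (k : ℕ) (T : Fin k → ℕ → ℚ) (j : Fin k) (e : ℕ) (κ0 : ℕ → ℚ) (x : Fin r → Fin k → ℤ)
      (κ : Fin r → ℕ → ℚ), e ≠ 0 ∧ (∀ l n, IsSU b (T l n)) ∧ (∀ l, Bd L (gm (T l))) ∧
      (∀ n, IsSU b (κ0 n)) ∧ gm κ0 ∈ KK L hL ∧ gm Z = gm κ0 * gm (T j) ^ e ∧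
      (∀ i n, IsSU b (κ i n)) ∧ (∀ i, gm (κ i) ∈ KK L hL) ∧
      (∀ i, gm (f i) = gm (κ i) * ∏ l, gm (T l) ^ (x i l)) ∧
      ∀ y : Fin k → ℤ, ∏ l, gm (T l) ^ (y l) ∈ KK L hL → y = 0 := by
  classical
  have hne : ∀ a : ℕ → ℚ, (∀ n, IsSU b (a n)) → gm a ≠ 0 := fun a ha => gsu_ne_zero hb ⟨a, rfl, ha⟩
  set F : Fin r → SUg b hb L := fun i =>
    ⟨Units.mk0 (gm (f i)) (hne _ (hf i)), ⟨f i, rfl, hf i⟩, hfB i⟩ with hF
  set z : SUg b hb L := ⟨Units.mk0 (gm Z) (hne _ hZ), ⟨Z, rfl, hZ⟩, hZB⟩ with hz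
  obtain ⟨k, T, j, e, he, h1, h2, h3⟩ := exists_gens (NU b hb L hL)
    (fun x k hk hx => by
      rw [mem_NU] at hx ⊢
      rw [map_pow] at hx
      exact mem_KK_of_pow hL _ hk hx) F z (by rw [mem_NU]; exact hZK)
  choose t ht ht' using fun l => (T l).2.1
  obtain ⟨κ0, hκ0, hκ0'⟩ := (z / T j ^ e).2.1
  choose x hx using h2
  choose κ hκ hκ' using fun i => (F i / ∏ l, T l ^ (x i l)).2.1
  have ht2 : ∀ l, vl b hb L (T l) = gm (t l) := ht
  have hκ2 : ∀ i, vl b hb L (F i / ∏ l, T l ^ (x i l)) = gm (κ i) := hκ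
  have hκ3 : vl b hb L (z / T j ^ e) = gm κ0 := hκ0
  have hprod : ∀ y : Fin k → ℤ, vl b hb L (∏ l, T l ^ (y l)) = ∏ l, gm (t l) ^ (y l) := by
    intro y
    rw [map_prod]
    exact Finset.prod_congr rfl fun l _ => by rw [vl_zpow, ht2]
  refine ⟨k, t, j, e, κ0, x, κ, he, ht', fun l => ?_, hκ0', ?_, ?_, hκ', fun i => ?_, fun i => ?_,
    fun y hy => ?_⟩
  · rw [← ht]
    exact (T l).2.2
  · rw [← hκ3]
    exact h1
  · rw [← hκ3, vl_div, map_pow, ht2, div_mul_cancel₀]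
    · rfl
    · rw [← ht2]
      exact pow_ne_zero _ (vl_ne_zero b hb _)
  · rw [← hκ2]
    exact hx i
  · rw [← hκ2, vl_div, ← hprod, div_mul_cancel₀]
    · rfl
    · exact vl_ne_zero b hb _
  · apply h3
    rw [mem_NU, hprod]
    exact hy

/-- multiplicatively independent unit germs are algebraically independent -/
theorem alg_indep {s : ℕ} (b : Fin s → ℕ) (hb : ∀ v, (b v).Prime) (hbi : Function.Injective b)
    (hL : Tendsto L atTop atTop) {k : ℕ} (T : Fin k → ℕ → ℚ) (hT : ∀ l n, IsSU b (T l n))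
    (hind : ∀ y : Fin k → ℤ, ∏ l, gm (T l) ^ (y l) ∈ KK L hL → y = 0)
    (p : MvPolynomial (Fin k) (KK L hL)) (hp : aeval (fun l => gm (T l)) p = 0) : p = 0 := by
  classical
  have hTne : ∀ l, gm (T l) ≠ 0 := fun l => gsu_ne_zero hb ⟨T l, rfl, hT l⟩
  set m := p.support.card with hm
  set E := p.support.equivFin with hE
  set u : Fin m → GG := fun i => ∏ l, gm (T l) ^ ((E.symm i : Fin k →₀ ℕ) l) with hu
  have h1 : ∀ i, GSU b (u i) := fun i =>
    gsu_prod hb _ _ fun l _ => gsu_pow hb ⟨T l, rfl, hT l⟩ _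
  have h2 : ∀ i i', i ≠ i' → u i / u i' ∉ KK L hL := by
    intro i i' hii hmem
    apply hii
    have h3 : u i / u i' = ∏ l, gm (T l) ^ (((E.symm i : Fin k →₀ ℕ) l : ℤ)
        - ((E.symm i' : Fin k →₀ ℕ) l : ℤ)) := by
      rw [hu]
      simp only []
      rw [← Finset.prod_div_distrib]
      refine Finset.prod_congr rfl fun l _ => ?_
      rw [zpow_sub₀ (hTne l), zpow_natCast, zpow_natCast]
    rw [h3] at hmem
    have h4 := hind _ hmem
    apply E.symm.injective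
    apply Subtype.ext
    ext l
    have h5 := congrFun h4 l
    simp only [Pi.zero_apply] at h5
    omega
  have h3 := sui s b hb hbi L hL m u h1 h2 (fun i => coeff (E.symm i : Fin k →₀ ℕ) p) (by
    rw [aeval_def, eval₂_eq'] at hp
    rw [← hp, ← Finset.sum_coe_sort p.support, ← E.symm.sum_comp]
    rfl)
  ext d
  rw [coeff_zero]
  by_cases hd : d ∈ p.support
  · have h4 := h3 (E ⟨d, hd⟩)
    rw [Equiv.symm_apply_apply] at h4
    rw [h4]
  · rw [notMem_support_iff.1 hd]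

end Pool.Agent.H556.FG
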