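import Mathlib
import Pool.Graph.R_pool_sql_team_seeded_3997aac3.Q217.SF.Capelli

/-!
# The polynomial `1 + κ X_j ^ e`
-/

set_option autoImplicit false

namespace Pool.Agent.H556.FG

open MvPolynomial

/-- `1 + κ X_j ^ e` is irreducible under Capelli's conditions -/
theorem irreducible_one_add {K : Type} [Field K] {k : ℕ} (j : Fin k) {e : ℕ} (he : e ≠ 0) {κ : K}
    (hκ : κ ≠ 0) (ha : ∀ p : ℕ, p.Prime → p ∣ e → ∀ c : K, κ * c ^ p ≠ -1)
    (ha4 : 4 ∣ e → ∀ c : K, κ * (4 * c ^ 4) ≠ 1) :
    Irreducible (1 + C κ * X j ^ e : MvPolynomial (Fin k) K) := by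
  classical
  have h1 : Irreducible (Polynomial.X ^ e - Polynomial.C (-κ⁻¹) : Polynomial K) := by
    apply Q217.SF.capelli he
    · intro p hp hpe c hc
      apply ha p hp hpe c
      rw [hc]
      field_simp
    · intro h4 c hc
      apply ha4 h4 c
      have : (4 * c ^ 4 : K) = κ⁻¹ := by linear_combination -hc
      rw [this]
      field_simp
  have h2 : Irreducible (1 + Polynomial.C κ * Polynomial.X ^ e : Polynomial K) := by
    have h3 : (1 + Polynomial.C κ * Polynomial.X ^ e : Polynomial K) =
        Polynomial.C κ * (Polynomial.X ^ e - Polynomial.C (-κ⁻¹)) := by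
      rw [mul_sub, ← Polynomial.C_mul, mul_neg, mul_inv_cancel₀ hκ]
      simp
      ring
    rw [h3]
    have hu : IsUnit (Polynomial.C κ) := Polynomial.isUnit_C.2 (isUnit_iff_ne_zero.2 hκ)
    exact (irreducible_isUnit_mul hu).2 h1
  rw [UniqueFactorizationMonoid.irreducible_iff_prime] at h2 ⊢
  -- the variables
  set S : Set (Fin k) := {j} with hS
  set j' : S := ⟨j, rfl⟩ with hj'
  have : Unique S := Set.uniqueSingleton j
  have h4 : (1 + C κ * X j ^ e : MvPolynomial (Fin k) K) =
      rename ((↑) : S → Fin k) (1 + C κ * X j' ^ e) := by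
    simp [map_add, map_mul, map_pow, rename_X, rename_C, hj']
  rw [h4, prime_rename_iff]
  have h6 : (MvPolynomial.uniqueAlgEquiv K S) (1 + C κ * X j' ^ e) =
      1 + Polynomial.C κ * Polynomial.X ^ e := by
    simp [map_add, map_mul, map_pow]
  rw [← MulEquiv.prime_iff (MvPolynomial.uniqueAlgEquiv K S)]
  rw [h6]
  exact h2

/-- division by `1 + κ X_j ^ e` does not leave a subring which contains `κ` -/
theorem coeff_mem_of_mul {K : Type} [Field K] (R : Subring K) {k : ℕ} (j : Fin k) {e : ℕ}
    (he : e ≠ 0) {κ : K} (hκ : κ ∈ R) (q g : MvPolynomial (Fin k) K)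
    (h : (1 + C κ * X j ^ e) * q = g) (hg : ∀ d, coeff d g ∈ R) : ∀ d, coeff d q ∈ R := by
  classical
  have key : ∀ n : ℕ, ∀ d : Fin k →₀ ℕ, d j ≤ n → coeff d q ∈ R := by
    intro n
    induction n using Nat.strong_induction_on with
    | _ n ih =>
      intro d hd
      have h1 := congrArg (coeff d) h
      rw [add_mul, one_mul, coeff_add, mul_assoc, coeff_C_mul, mul_comm (X j ^ e) q, X_pow_eq_monomial,
        coeff_mul_monomial', mul_one] at h1
      by_cases hle : (fun₀ | j => e) ≤ d
      · rw [if_pos hle] at h1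
        have h2 : coeff d q = coeff d g - κ * coeff (d - fun₀ | j => e) q := by
          rw [← h1]; ring
        rw [h2]
        have h3 : (d - fun₀ | j => e) j < d j := by
          have := hle j
          simp at this
          simp
          omega
        exact R.sub_mem (hg d) (R.mul_mem hκ (ih _ (lt_of_lt_of_le h3 hd) _ le_rfl))
      · rw [if_neg hle, mul_zero, add_zero] at h1
        rw [h1]
        exact hg d
  exact fun d => key _ d le_rfl

end Pool.Agent.H556.FG
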