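import Mathlib
import Pool.Agent.H556.FG.Germ
import Pool.Agent.H556.FG.Poly

/-!
# Common divisors of Fermat numbers and short sums of `S`-units, germs
-/

set_option autoImplicit false

namespace Pool.Agent.H556.FG

open Filter Topology Pool.Agent.TH932.Germs Pool.Agent.TH551.SU Pool.Agent.Y724.Vj
open Pool.Agent.TH551.SU.SUI MvPolynomial

variable {L : ℕ → ℝ}

/-- division of `S`-integral germs -/
lemma sg_div {β : ℕ} {a : ℕ → ℚ} (ha : Sg L β (gm a)) (D : ℕ → ℕ) (hD0 : ∀ n, D n ≠ 0)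
    (hD : ∀ n, (D n : ℤ) ∣ (a n).num) : Sg L β (gm (fun n => 1 / (D n : ℚ)) * gm a) := by
  obtain ⟨A, hA⟩ := ha
  rw [mem_SS] at hA
  refine ⟨A, ?_⟩
  rw [gm_mul, mem_SS]
  intro ε hε
  filter_upwards [hA ε hε] with n hn
  obtain ⟨d, m, k, h1, h2, h3, h4⟩ := hn
  obtain ⟨w, hw⟩ := hD n
  have hDq : (D n : ℚ) ≠ 0 := by exact_mod_cast hD0 n
  have hden : ((a n).den : ℤ) ∣ d * (β : ℤ) ^ k := by
    have h5 : ((a n).den : ℤ) ∣ (d * (β : ℤ) ^ k) * (a n).num := by
      refine ⟨m, ?_⟩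
      have h6 : ((a n).num : ℚ) = a n * (a n).den := by
        rw [Rat.mul_den_eq_num]
      have h7 : ((d * (β : ℤ) ^ k * (a n).num : ℤ) : ℚ) = ((a n).den * m : ℤ) := by
        push_cast
        rw [h6, ← h3]
        ring
      exact_mod_cast h7
    have h8 : IsCoprime ((a n).den : ℤ) (a n).num := by
      rw [Int.isCoprime_iff_gcd_eq_one, Int.gcd, Int.natAbs_natCast, Nat.gcd_comm]
      exact (a n).reduced
    exact h8.dvd_of_dvd_mul_right h5
  obtain ⟨q, hq⟩ := hden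
  refine ⟨d, q * w, k, h1, h2, ?_, h4⟩
  have h10 : a n * (a n).den = D n * w := by
    rw [Rat.mul_den_eq_num]
    exact_mod_cast hw
  have hq' : (d : ℚ) * (β : ℚ) ^ k = (a n).den * q := by exact_mod_cast hq
  rw [hq']
  push_cast
  have h11 : ((a n).den : ℚ) * q * (1 / (D n : ℚ) * a n) = q * (a n * (a n).den) / D n := by ring
  rw [h11, h10]
  field_simp

/-- the ring of exactly `S`-integral germs -/
def IR (β : ℕ) : Subring GG where
  carrier := {g | ∃ a : ℕ → ℚ, g = gm a ∧ ∀ n, ∃ (k : ℕ) (z : ℤ), (β : ℚ) ^ k * a n = z}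
  mul_mem' := by
    rintro x y ⟨a, rfl, ha⟩ ⟨c, rfl, hc⟩
    refine ⟨_, gm_mul a c, fun n => ?_⟩
    obtain ⟨k, z, h1⟩ := ha n
    obtain ⟨l, w, h2⟩ := hc n
    refine ⟨k + l, z * w, ?_⟩
    push_cast
    rw [← h1, ← h2, pow_add]
    ring
  one_mem' := ⟨fun _ => 1, gm_one.symm, fun n => ⟨0, 1, by simp⟩⟩
  add_mem' := by
    rintro x y ⟨a, rfl, ha⟩ ⟨c, rfl, hc⟩
    refine ⟨_, gm_add a c, fun n => ?_⟩
    obtain ⟨k, z, h1⟩ := ha n
    obtain ⟨l, w, h2⟩ := hc n
    refine ⟨k + l, β ^ l * z + β ^ k * w, ?_⟩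
    push_cast
    rw [← h1, ← h2, pow_add]
    ring
  zero_mem' := ⟨fun _ => 0, gm_zero.symm, fun n => ⟨0, 0, by simp⟩⟩
  neg_mem' := by
    rintro x ⟨a, rfl, ha⟩
    refine ⟨_, gm_neg a, fun n => ?_⟩
    obtain ⟨k, z, h1⟩ := ha n
    refine ⟨k, -z, ?_⟩
    push_cast
    rw [← h1]
    ring

lemma mem_IR_int (β : ℕ) (m : ℕ → ℤ) : gm (fun n => (m n : ℚ)) ∈ IR β :=
  ⟨_, rfl, fun n => ⟨0, m n, by simp⟩⟩

lemma mem_IR_su {s : ℕ} {b : Fin s → ℕ} (hb : ∀ v, (b v).Prime) {a : ℕ → ℚ}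
    (ha : ∀ n, IsSU b (a n)) : gm a ∈ IR (∏ v, b v) := by
  refine ⟨a, rfl, fun n => ?_⟩
  obtain ⟨σ, e, hσ, he⟩ := ha n
  set k : ℕ := ∑ v, (e v).natAbs with hk
  refine ⟨k, (σ * ∏ v, (b v : ℤ) ^ ((k : ℤ) + e v).toNat), ?_⟩
  rw [he]
  push_cast
  rw [mul_left_comm]
  congr 1
  rw [← Finset.prod_pow, ← Finset.prod_mul_distrib]
  refine Finset.prod_congr rfl fun v _ => ?_
  have hbv : (b v : ℚ) ≠ 0 := by exact_mod_cast (hb v).ne_zero
  rw [← zpow_natCast, ← zpow_natCast, ← zpow_add₀ hbv]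
  congr 1
  have h3 : (e v).natAbs ≤ k :=
    Finset.single_le_sum (f := fun v => (e v).natAbs) (fun _ _ => Nat.zero_le _)
      (Finset.mem_univ v)
  rw [Int.toNat_of_nonneg (by omega)]

/-- powers of two which are powers of rational numbers -/
lemma dvd_of_pow_eq {q : ℚ} {p N : ℕ} (hp : p ≠ 0) (h : q ^ p = 2 ^ N) : p ∣ N := by
  have h1 := congrArg (padicValRat 2) h
  have hq : q ≠ 0 := by
    rintro rfl
    rw [zero_pow hp] at h
    exact absurd h.symm (by positivity)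
  have := Fact.mk Nat.prime_two
  rw [padicValRat.pow, padicValRat.pow] at h1
  have h2 : padicValRat 2 (2 : ℚ) = 1 := by
    have := padicValRat.self (p := 2) (by norm_num)
    exact_mod_cast this
  rw [h2, mul_one] at h1
  have h3 : (p : ℤ) ∣ (N : ℤ) := ⟨_, h1.symm⟩
  exact_mod_cast h3


section core

open Nat (fermatNumber)

lemma gm_sum' {ι : Type*} (S : Finset ι) (f : ι → ℕ → ℚ) :
    gm (fun n => ∑ i ∈ S, f i n) = ∑ i ∈ S, gm (f i) := by
  classical
  induction S using Finset.induction_on with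
  | empty => simp only [Finset.sum_empty]; exact gm_zero
  | insert a S ha ih =>
    rw [Finset.sum_insert ha, ← ih, gm_add]
    congr 1
    funext n
    rw [Finset.sum_insert ha]

/-- the logarithm of the Fermat number -/
noncomputable def LF (m : ℕ → ℕ) (n : ℕ) : ℝ := Real.log (fermatNumber (m n))

lemma exp_LF (m : ℕ → ℕ) (n : ℕ) : Real.exp (LF m n) = fermatNumber (m n) := by
  rw [LF, Real.exp_log]
  have := Nat.three_le_fermatNumber (m n)
  have h : (3 : ℝ) ≤ fermatNumber (m n) := by exact_mod_cast this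
  linarith

lemma LF_tendsto (m : ℕ → ℕ) (hm : ∀ n, n + 2 ≤ m n) : Tendsto (LF m) atTop atTop := by
  apply Real.tendsto_log_atTop.comp
  apply tendsto_natCast_atTop_atTop.comp
  refine tendsto_atTop_mono (fun n => ?_) tendsto_id
  have h1 : m n < 2 ^ m n := Nat.lt_two_pow_self
  have h2 : 2 ^ m n < 2 ^ 2 ^ m n := Nat.lt_two_pow_self
  have h3 := hm n
  unfold fermatNumber
  simp only [id]
  omega

lemma fermat_cast (m : ℕ) : ((fermatNumber m : ℕ) : ℚ) = 2 ^ 2 ^ m + 1 := by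
  unfold fermatNumber
  push_cast
  rfl

lemma pow_not_mem_KK (m : ℕ → ℕ) (hm : ∀ n, n + 2 ≤ m n) :
    gm (fun n => (2 : ℚ) ^ 2 ^ (m n)) ∉ KK (LF m) (LF_tendsto m hm) := by
  intro h
  rw [mem_KK_iff] at h
  have h1 := h.1 (1 / 2) (by norm_num)
  have h2 : ∀ᶠ n in (UU : Filter ℕ), (8 : ℝ) ≤ LF m n :=
    ev_of_atTop ((LF_tendsto m hm).eventually_ge_atTop 8)
  obtain ⟨n, hn1, hn2⟩ := (h1.and h2).exists
  have h3 : ((2 : ℚ) ^ 2 ^ (m n)).num = 2 ^ 2 ^ (m n) := by
    have : ((2 : ℚ) ^ 2 ^ (m n)) = ((2 ^ 2 ^ (m n) : ℤ) : ℚ) := by push_cast; rfl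
    rw [this, Rat.num_intCast]
  simp only [h3] at hn1
  push_cast at hn1
  rw [abs_of_pos (by positivity)] at hn1
  have h4 := exp_LF m n
  have h5 : (fermatNumber (m n) : ℝ) = 2 ^ 2 ^ (m n) + 1 := by exact_mod_cast fermat_cast (m n)
  have h6 : Real.exp (LF m n) = Real.exp (1 / 2 * LF m n) * Real.exp (1 / 2 * LF m n) := by
    rw [← Real.exp_add]; ring_nf
  have h7 := Real.add_one_le_exp (1 / 2 * LF m n)
  nlinarith

theorem core {s : ℕ} (b : Fin s → ℕ) (hb : ∀ v, (b v).Prime) (hbi : Function.Injective b)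
    (v2 : Fin s) (hv2 : b v2 = 2) (m : ℕ → ℕ) (hm : ∀ n, n + 2 ≤ m n)
    (hcop : ∀ n v, Nat.Coprime (fermatNumber (m n)) (b v)) {r : ℕ} (c : Fin r → ℕ → ℤ)
    (u : Fin r → ℕ → ℚ) (hu : ∀ i n, IsSU b (u i n)) (huB : ∀ i, Bd (LF m) (gm (u i)))
    (hc : ∀ i, Negl (LF m) (c i)) (D : ℕ → ℕ) (hDF : ∀ n, D n ∣ fermatNumber (m n))
    (hDG : ∀ n, (D n : ℤ) ∣ (∑ i, (c i n : ℚ) * u i n).num)
    (hNF : ∀ n, ¬ (fermatNumber (m n) : ℤ) ∣ (∑ i, (c i n : ℚ) * u i n).num) {δ : ℝ} (hδ : 0 < δ)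
    (hD : ∀ n, Real.exp (δ * LF m n) ≤ D n) : False := by
  classical
  set L := LF m with hLdef
  have hL : Tendsto L atTop atTop := LF_tendsto m hm
  set F : ℕ → ℕ := fun n => fermatNumber (m n) with hF
  set β : ℕ := ∏ v, b v with hβ
  have hF0 : ∀ n, F n ≠ 0 := fun n => by
    have := Nat.three_le_fermatNumber (m n)
    rw [hF]
    simp only []
    omega
  have hD0 : ∀ n, D n ≠ 0 := fun n h => by
    have := hDF n
    rw [h, zero_dvd_iff] at this
    exact hF0 n this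
  -- the power of two
  set Z : ℕ → ℚ := fun n => 2 ^ 2 ^ (m n) with hZ
  have hZsu : ∀ n, IsSU b (Z n) := by
    intro n
    refine ⟨1, fun v => if v = v2 then ((2 ^ m n : ℕ) : ℤ) else 0, Or.inl rfl, ?_⟩
    rw [Finset.prod_eq_single v2]
    · simp only [if_true]
      rw [hv2, zpow_natCast]
      push_cast
      rw [one_mul]
    · intro v _ hv
      simp only [if_neg hv]
      rw [zpow_zero]
    · intro h
      exact absurd (Finset.mem_univ _) h
  have hZB : Bd L (gm Z) := by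
    refine ⟨fun n => 2 ^ 2 ^ (m n), fun _ => 1, 1, ?_, ?_, ?_, ?_⟩
    · refine Eventually.of_forall fun n => ?_
      push_cast
      rw [one_mul, hLdef, exp_LF, abs_of_pos (by positivity)]
      have h5 : (fermatNumber (m n) : ℝ) = 2 ^ 2 ^ (m n) + 1 := by
        exact_mod_cast fermat_cast (m n)
      rw [h5]
      linarith
    · refine Eventually.of_forall fun n => ?_
      push_cast
      rw [abs_one, one_mul, hLdef, exp_LF]
      have := Nat.three_le_fermatNumber (m n)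
      have h : (3 : ℝ) ≤ fermatNumber (m n) := by exact_mod_cast this
      linarith
    · exact Eventually.of_forall fun n => one_ne_zero
    · congr 1
      funext n
      push_cast
      rw [div_one]
  obtain ⟨k, T, j, e, κ0, x, κ, he, hT, hTB, hκ0, hκ0K, hZT, hκ, hκK, huT, hind⟩ :=
    exists_T b hb hL u hu huB Z hZsu hZB (pow_not_mem_KK m hm)
  have hTne : ∀ l, gm (T l) ≠ 0 := fun l => gsu_ne_zero hb ⟨T l, rfl, hT l⟩
  have hκ0ne : gm κ0 ≠ 0 := gsu_ne_zero hb ⟨κ0, rfl, hκ0⟩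
  have halg := alg_indep b hb hbi hL T hT hind
  -- the two polynomials
  set k0 : KK L hL := ⟨gm κ0, hκ0K⟩ with hk0
  have hcK : ∀ i, gm (fun n => (c i n : ℚ)) ∈ KK L hL := by
    intro i
    refine ⟨c i, fun _ => 1, hc i, Negl.one hL, by simp, ?_⟩
    congr 1
    funext n
    push_cast
    rw [div_one]
  set co : Fin r → KK L hL := fun i => ⟨_, mul_mem (hcK i) (hκK i)⟩ with hco
  set h : Fin k → ℕ := fun l => ∑ i, (x i l).natAbs with hh
  set f : MvPolynomial (Fin k) (KK L hL) := 1 + C k0 * X j ^ e with hf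
  set E : Fin r → (Fin k →₀ ℕ) := fun i =>
    Finsupp.equivFunOnFinite.symm (fun l => ((h l : ℤ) + x i l).toNat) with hE
  set g : MvPolynomial (Fin k) (KK L hL) := ∑ i, monomial (E i) (co i) with hg
  set TT : GG := ∏ l, gm (T l) ^ (h l) with hTT
  have hTT0 : TT ≠ 0 := Finset.prod_ne_zero_iff.2 fun l _ => pow_ne_zero _ (hTne l)
  have hfT : aeval (fun l => gm (T l)) f = gm (fun n => (F n : ℚ)) := by
    rw [hf, map_add, map_one, map_mul, map_pow, aeval_X, aeval_C]
    have h1 : algebraMap (KK L hL) GG k0 = gm κ0 := rfl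
    rw [h1, ← hZT, ← gm_one, gm_add]
    congr 1
    funext n
    rw [hF]
    simp only []
    rw [fermat_cast, add_comm]
  have hsum : gm (fun n => ∑ i, (c i n : ℚ) * u i n) =
      ∑ i, gm (fun n => (c i n : ℚ)) * gm (u i) := by
    rw [gm_sum']
    rfl
  have hgT : aeval (fun l => gm (T l)) g = TT * gm (fun n => ∑ i, (c i n : ℚ) * u i n) := by
    rw [hsum, hg, map_sum, Finset.mul_sum]
    refine Finset.sum_congr rfl fun i _ => ?_
    rw [aeval_monomial, huT i, Finsupp.prod_fintype _ _ (fun l => pow_zero _)]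
    have h1 : algebraMap (KK L hL) GG (co i) = gm (fun n => (c i n : ℚ)) * gm (κ i) := rfl
    rw [h1]
    have h2 : ∏ l, gm (T l) ^ (E i l) = TT * ∏ l, gm (T l) ^ (x i l) := by
      rw [hTT, ← Finset.prod_mul_distrib]
      refine Finset.prod_congr rfl fun l _ => ?_
      have h4 : E i l = ((h l : ℤ) + x i l).toNat := rfl
      rw [h4, ← zpow_natCast, ← zpow_natCast, ← zpow_add₀ (hTne l)]
      congr 1
      rw [Int.toNat_of_nonneg]
      have h3 : (x i l).natAbs ≤ h l :=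
        Finset.single_le_sum (f := fun i => (x i l).natAbs) (fun _ _ => Nat.zero_le _)
          (Finset.mem_univ i)
      omega
    rw [h2]
    ring
  -- irreducibility
  have hZw : ∀ w : GG, ∀ p : ℕ, p.Prime → gm Z ≠ -w ^ p := by
    intro w p hp hw
    obtain ⟨ω, rfl⟩ := gm_surj w
    rw [gm_pow, gm_neg, gm_eq] at hw
    obtain ⟨n, hn⟩ := hw.exists
    have hpos : (0 : ℚ) < Z n := by rw [hZ]; positivity
    rcases hp.eq_two_or_odd' with rfl | hodd
    · nlinarith [sq_nonneg (ω n)]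
    · rw [← hodd.neg_pow] at hn
      have h1 := dvd_of_pow_eq hp.ne_zero hn.symm
      have h2 := (Nat.prime_dvd_prime_iff_eq hp Nat.prime_two).1 (hp.dvd_of_dvd_pow h1)
      rw [h2] at hodd
      exact absurd hodd (by decide)
  have hfirr : Irreducible f := by
    apply irreducible_one_add j he
    · intro h0
      exact hκ0ne (congrArg Subtype.val h0)
    · intro p hp hpe c' hc'
      obtain ⟨e', rfl⟩ := hpe
      have h1 : gm κ0 * (c' : GG) ^ p = -1 := congrArg Subtype.val hc'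
      have hc0 : (c' : GG) ≠ 0 := by
        intro h2
        rw [h2, zero_pow hp.ne_zero, mul_zero] at h1
        exact absurd h1.symm (neg_ne_zero.2 one_ne_zero)
      apply hZw (gm (T j) ^ e' / (c' : GG)) p hp
      rw [hZT, div_pow, ← pow_mul, mul_comm e' p, ← neg_div, eq_div_iff (pow_ne_zero _ hc0)]
      linear_combination gm (T j) ^ (p * e') * h1
    · intro h4 c' hc'
      obtain ⟨e', rfl⟩ := h4
      have h1 : gm κ0 * (4 * (c' : GG) ^ 4) = 1 := by
        have := congrArg Subtype.val hc'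
        exact this
      have hc0 : (c' : GG) ≠ 0 := by
        intro h2
        rw [h2, zero_pow (by norm_num), mul_zero, mul_zero] at h1
        exact zero_ne_one h1
      have h2 : gm Z * 4 = (gm (T j) ^ e' / (c' : GG)) ^ 4 := by
        rw [hZT, div_pow, ← pow_mul, mul_comm e' 4, eq_div_iff (pow_ne_zero _ hc0)]
        linear_combination gm (T j) ^ (4 * e') * h1
      obtain ⟨ω, hω⟩ := gm_surj (gm (T j) ^ e' / (c' : GG))
      have h3 : gm (fun _ => (4 : ℚ)) = (4 : GG) := rfl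
      rw [← hω, ← h3, gm_mul, gm_pow, gm_eq] at h2
      obtain ⟨n, hn⟩ := h2.exists
      have h5 : (2 : ℚ) ^ (2 ^ m n + 2) = Z n * 4 := by
        rw [hZ, pow_add]
        norm_num
      rw [← h5] at hn
      have h6 := dvd_of_pow_eq (by norm_num) hn.symm
      have h7 : 2 ≤ m n := by have := hm n; omega
      obtain ⟨w, hw⟩ := Nat.exists_eq_add_of_le h7
      rw [hw, pow_add] at h6
      norm_num at h6
      omega
  -- divisibility
  have hD1 : ∀ n, D n ≤ F n := fun n => Nat.le_of_dvd (Nat.pos_of_ne_zero (hF0 n)) (hDF n)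
  have hSgG : Sg L β (gm (fun n => ∑ i, (c i n : ℚ) * u i n)) := by
    rw [hsum]
    refine Sg.sum hL _ _ fun i _ => (Sg.int hL (c i)).mul ?_
    exact Sg.of_su b hb hbi hL (hu i) (huB i)
  have hdvd : f ∣ g := by
    by_contra hnd
    have hrel : IsRelPrime f g := hfirr.isRelPrime_iff_not_dvd.2 hnd
    have hg0 : g ≠ 0 := by
      intro h0
      apply hnd
      rw [h0]
      exact dvd_zero _
    have hneg := gcd_germ b hb hbi hL T hT hTB halg f g hfirr.ne_zero hg0 hrel D hD0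
      (fun n v => Nat.Coprime.coprime_dvd_left (hDF n) (hcop n v)) 1
      (Eventually.of_forall fun n => by
        rw [one_mul, hLdef, exp_LF]
        exact_mod_cast hD1 n)
      (by
        rw [hfT, gm_mul]
        have h1 : (fun n => 1 / (D n : ℚ) * (F n : ℚ)) = fun n => (((F n / D n : ℕ) : ℤ) : ℚ) := by
          funext n
          obtain ⟨w, hw⟩ := hDF n
          have h2 : (D n : ℚ) ≠ 0 := by exact_mod_cast hD0 n
          have h3 : F n = D n * w := hw
          rw [h3, Nat.mul_div_cancel_left _ (Nat.pos_of_ne_zero (hD0 n))]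
          push_cast
          field_simp
        rw [h1]
        exact Sg.int hL _)
      (by
        rw [hgT, mul_left_comm]
        refine Sg.mul (Sg.prod hL _ _ fun l _ => ?_) (sg_div hSgG D hD0 hDG)
        exact (Sg.of_su b hb hbi hL (hT l) (hTB l)).pow hL _)
    have h1 := hneg (δ / 2) (by positivity)
    obtain ⟨n, hn1, hn2⟩ := (h1.and (ev_of_atTop (hL.eventually_ge_atTop 1))).exists
    have h2 := hD n
    rw [Int.cast_natCast, abs_of_nonneg (Nat.cast_nonneg _)] at hn1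
    have h3 := Real.exp_le_exp.1 (h2.trans hn1)
    nlinarith
  obtain ⟨q, hq⟩ := hdvd
  have hqR := coeff_mem_of_mul ((IR β).comap (algebraMap (KK L hL) GG)) j he (κ := k0)
    (mem_IR_su hb hκ0) q g hq.symm (by
      intro d
      rw [hg, coeff_sum]
      refine sum_mem fun i _ => ?_
      rw [coeff_monomial]
      split_ifs with h1
      · change algebraMap (KK L hL) GG (co i) ∈ IR β
        exact mul_mem (mem_IR_int β (c i)) (mem_IR_su hb (hκ i))
      · exact zero_mem _)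
  have hqT : aeval (fun l => gm (T l)) q ∈ IR β := by
    rw [aeval_def, eval₂_eq']
    refine sum_mem fun d _ => mul_mem (hqR d) (prod_mem fun l _ => pow_mem (mem_IR_su hb (hT l)) _)
  have hTTinv : TT⁻¹ ∈ IR β := by
    rw [hTT, ← Finset.prod_inv_distrib]
    refine prod_mem fun l _ => ?_
    rw [← inv_pow, gm_inv]
    exact pow_mem (mem_IR_su hb fun n => isSU_inv (hT l n)) _
  have hFne : gm (fun n => (F n : ℚ)) ≠ 0 := by
    rw [gm_ne_zero]
    exact Eventually.of_forall fun n => by exact_mod_cast hF0 n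
  have hfin : gm (fun n => ∑ i, (c i n : ℚ) * u i n) * (gm (fun n => (F n : ℚ)))⁻¹ ∈ IR β := by
    have h1 : gm (fun n => ∑ i, (c i n : ℚ) * u i n) * (gm (fun n => (F n : ℚ)))⁻¹ =
        TT⁻¹ * aeval (fun l => gm (T l)) q := by
      rw [hq, map_mul, hfT] at hgT
      field_simp
      rw [hgT, mul_comm]
    rw [h1]
    exact mul_mem hTTinv hqT
  obtain ⟨a, ha, ha'⟩ := hfin
  rw [gm_inv, gm_mul, gm_eq] at ha
  obtain ⟨n, hn⟩ := ha.exists
  obtain ⟨k', z, hz⟩ := ha' n
  apply hNF n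
  set G : ℚ := ∑ i, (c i n : ℚ) * u i n with hG
  have hFq : (F n : ℚ) ≠ 0 := by exact_mod_cast hF0 n
  have h1 : (β : ℚ) ^ k' * G = z * F n := by
    rw [← hz, ← hn]
    field_simp
  have h2 : (β : ℤ) ^ k' * G.num = F n * (z * G.den) := by
    have h3 : G * G.den = G.num := Rat.mul_den_eq_num G
    have h4 : ((β : ℤ) ^ k' * G.num : ℤ) = ((F n * (z * G.den) : ℤ) : ℚ) := by
      push_cast
      rw [← h3]
      linear_combination (G.den : ℚ) * h1
    exact_mod_cast h4
  have h5 : IsCoprime (F n : ℤ) ((β : ℤ) ^ k') := by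
    apply IsCoprime.pow_right
    rw [Nat.isCoprime_iff_coprime, hβ]
    exact Nat.Coprime.prod_right fun v _ => hcop n v
  exact h5.dvd_of_dvd_mul_left ⟨_, h2⟩

end core

end Pool.Agent.H556.FG
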