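import Mathlib
import Pool.Agent.H556.FG.Core

/-!
# Common divisors of Fermat numbers and short sums of `S`-units
-/

set_option autoImplicit false

namespace Pool.Agent.H556.FG

open Filter Topology Pool.Agent.TH932.Germs Pool.Agent.TH551.SU Pool.Agent.Y724.Vj
open Nat (fermatNumber)

/-- primes dividing Fermat numbers are large -/
lemma coprime_fermat {m p : ℕ} (hm : 2 ≤ m) (hp : p.Prime) (hpm : p ≤ m) :
    Nat.Coprime (fermatNumber m) p := by
  rw [Nat.coprime_comm, hp.coprime_iff_not_dvd]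
  intro h
  obtain ⟨k, hk⟩ := Nat.fermat_primeFactors_one_lt m p (by omega) hp h
  have hk0 : k ≠ 0 := by
    rintro rfl
    rw [zero_mul, zero_add] at hk
    exact hp.one_lt.ne' hk
  have h1 : m + 2 < 2 ^ (m + 2) := Nat.lt_two_pow_self
  have h2 : 2 ^ (m + 2) ≤ k * 2 ^ (m + 2) := Nat.le_mul_of_pos_left _ (Nat.pos_of_ne_zero hk0)
  omega

/-- rational numbers composed of given primes -/
lemma isSU_of {s : ℕ} (b : Fin s → ℕ) (hb : ∀ v, (b v).Prime) (u : ℚ) (hu : u ≠ 0)
    (h : ∀ p : ℕ, p.Prime → (p ∣ u.num.natAbs ∨ p ∣ u.den) → ∃ v, b v = p)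
    (hbi : Function.Injective b) : IsSU b u := by
  classical
  have hN : ∀ N : ℕ, N ≠ 0 → (∀ p : ℕ, p.Prime → p ∣ N → ∃ v, b v = p) → IsSU b (N : ℚ) := by
    intro N hN0 hN
    refine ⟨1, fun v => (N.factorization (b v) : ℤ), Or.inl rfl, ?_⟩
    have h1 : N = ∏ v, (b v) ^ (N.factorization (b v)) := by
      conv_lhs => rw [← Nat.prod_factorization_pow_eq_self hN0]
      rw [Finsupp.prod]
      rw [← Finset.prod_image (s := Finset.univ) (g := b)
        (f := fun p => p ^ N.factorization p) (fun x _ y _ h => hbi h)]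
      apply Finset.prod_subset
      · intro p hp
        have hp1 := Nat.support_factorization N ▸ hp
        obtain ⟨v, hv⟩ := hN p (Nat.prime_of_mem_primeFactors hp1) (Nat.dvd_of_mem_primeFactors hp1)
        exact Finset.mem_image.2 ⟨v, Finset.mem_univ _, hv⟩
      · intro p _ hp
        rw [Finsupp.notMem_support_iff.1 hp, pow_zero]
    conv_lhs => rw [h1]
    push_cast
    rw [one_mul]
    exact Finset.prod_congr rfl fun v _ => by rw [zpow_natCast]
  have h1 : IsSU b ((u.num.natAbs : ℕ) : ℚ) := hN _ (by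
    rw [Int.natAbs_ne_zero]
    exact Rat.num_ne_zero.2 hu) fun p hp hd => h p hp (Or.inl hd)
  have h2 : IsSU b ((u.den : ℕ) : ℚ) := hN _ u.den_ne_zero fun p hp hd => h p hp (Or.inr hd)
  have h3 : IsSU b (((u.num.natAbs : ℕ) : ℚ) * ((u.den : ℕ) : ℚ)⁻¹) :=
    isSU_mul hb h1 (isSU_inv h2)
  have hsgn : IsSU b (-1) := ⟨-1, fun _ => 0, Or.inr rfl, by simp⟩
  rcases Int.natAbs_eq u.num with h4 | h4
  · have h5 : u = ((u.num.natAbs : ℕ) : ℚ) * ((u.den : ℕ) : ℚ)⁻¹ := by
      conv_lhs => rw [← Rat.num_div_den u, h4]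
      rw [div_eq_mul_inv, Int.cast_natCast]
    rw [h5]
    exact h3
  · have h5 : u = (-1) * (((u.num.natAbs : ℕ) : ℚ) * ((u.den : ℕ) : ℚ)⁻¹) := by
      conv_lhs => rw [← Rat.num_div_den u, h4]
      rw [div_eq_mul_inv, Int.cast_neg, Int.cast_natCast]
      ring
    rw [h5]
    exact isSU_mul hb hsgn h3

/-- the theorem in qualitative form -/
theorem main (S : Finset ℕ) (r : ℕ) (K δ : ℝ) (hδ : 0 < δ) :
    ∃ ε : ℝ, 0 < ε ∧ ∃ m₀ : ℕ, ∀ m ≥ m₀, ∀ (c : Fin r → ℤ) (u : Fin r → ℚ),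
      (∀ i, |(c i : ℝ)| ≤ (fermatNumber m : ℝ) ^ ε) → (∀ i, u i ≠ 0) →
      (∀ i, ∀ p : ℕ, p.Prime → (p ∣ (u i).num.natAbs ∨ p ∣ (u i).den) → p ∈ S) →
      (∀ i, |((u i).num : ℝ)| ≤ (fermatNumber m : ℝ) ^ K ∧
        ((u i).den : ℝ) ≤ (fermatNumber m : ℝ) ^ K) →
      ¬ (fermatNumber m : ℤ) ∣ (∑ i, (c i : ℚ) * u i).num →
      ∀ d : ℕ, d ∣ fermatNumber m → (d : ℤ) ∣ (∑ i, (c i : ℚ) * u i).num →
      (d : ℝ) < (fermatNumber m : ℝ) ^ δ := by
  classical
  by_contra hcon
  push Not at hcon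
  -- the primes
  set S' : Finset ℕ := insert 2 (S.filter Nat.Prime) with hS'
  set b : Fin S'.card → ℕ := fun v => (S'.equivFin.symm v : ℕ) with hb0
  have hb : ∀ v, (b v).Prime := by
    intro v
    have h1 := (S'.equivFin.symm v).2
    rcases Finset.mem_insert.1 h1 with h2 | h2
    · rw [hb0]
      simp only []
      rw [h2]
      exact Nat.prime_two
    · exact (Finset.mem_filter.1 h2).2
  have hbi : Function.Injective b := fun x y h =>
    S'.equivFin.symm.injective (Subtype.ext h)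
  have hbs : ∀ p ∈ S', ∃ v, b v = p := fun p hp =>
    ⟨S'.equivFin ⟨p, hp⟩, by rw [hb0]; simp⟩
  obtain ⟨v2, hv2⟩ := hbs 2 (Finset.mem_insert_self _ _)
  have hble : ∀ v, b v ≤ ∑ p ∈ S', p := fun v =>
    Finset.single_le_sum (f := fun p : ℕ => p) (fun _ _ => Nat.zero_le _) (S'.equivFin.symm v).2
  choose m hm c u hc hu0 hu huB hNF D hDF hDG hD using
    fun n : ℕ => hcon (1 / ((n : ℝ) + 1)) (by positivity) (n + 2 + ∑ p ∈ S', p)
  have hm2 : ∀ n, n + 2 ≤ m n := fun n => by have := hm n; omega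
  have hlog : ∀ n, (fermatNumber (m n) : ℝ) = Real.exp (LF m n) := fun n => (exp_LF m n).symm
  have hL := LF_tendsto m hm2
  refine core b hb hbi v2 hv2 m hm2 (fun n v => ?_) (fun i n => c n i) (fun i n => u n i)
    (fun i n => ?_) (fun i => ?_) (fun i => ?_) D hDF hDG hNF hδ (fun n => ?_)
  · apply coprime_fermat (by have := hm2 n; omega) (hb v)
    have := hm n
    have := hble v
    omega
  · apply isSU_of b hb _ (hu0 n i) _ hbi
    intro p hp hd
    apply hbs
    exact Finset.mem_insert_of_mem (Finset.mem_filter.2 ⟨hu n i p hp hd, hp⟩)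
  · refine ⟨fun n => (u n i).num, fun n => ((u n i).den : ℤ), K, ?_, ?_, ?_, ?_⟩
    · refine Eventually.of_forall fun n => ?_
      have h1 := (huB n i).1
      rw [hlog, ← Real.exp_mul, mul_comm] at h1
      exact h1
    · refine Eventually.of_forall fun n => ?_
      have h1 := (huB n i).2
      rw [hlog, ← Real.exp_mul, mul_comm] at h1
      rw [Int.cast_natCast, abs_of_nonneg (Nat.cast_nonneg _)]
      exact h1
    · refine Eventually.of_forall fun n => ?_
      simp only []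
      exact_mod_cast (u n i).den_ne_zero
    · congr 1
      funext n
      exact_mod_cast (Rat.num_div_den (u n i)).symm
  · intro ε hε
    obtain ⟨N, hN⟩ := exists_nat_gt (1 / ε)
    filter_upwards [ev_of_atTop (eventually_ge_atTop N), L_nonneg hL] with n hn hn2
    have h1 := hc n i
    rw [hlog, ← Real.exp_mul] at h1
    refine h1.trans (Real.exp_le_exp.2 ?_)
    rw [mul_comm]
    apply mul_le_mul_of_nonneg_right _ hn2
    have hN' : (N : ℝ) ≤ n := by exact_mod_cast hn
    rw [div_le_iff₀ (by positivity)]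
    rw [div_lt_iff₀ hε] at hN
    nlinarith
  · have h1 := hD n
    rw [hlog, ← Real.exp_mul, mul_comm] at h1
    exact h1

end Pool.Agent.H556.FG
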